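import Pool.Agent.helper70.GB.SpecK

/-!
# Project gb: the transpose on `K_1` (module KT)
-/

open Matrix Polynomial

namespace GB

universe u

section

variable {A : Type*} [CommRing A] {ι κ : Type*} [Fintype ι] [DecidableEq ι] [Fintype κ]
  [DecidableEq κ]

theorem KT_dsum_transpose (M : Matrix ι ι A) (N : Matrix κ κ A) :
    (dsum M N)ᵀ = dsum Mᵀ Nᵀ := by
  unfold dsum
  rw [Matrix.fromBlocks_transpose, Matrix.transpose_zero, Matrix.transpose_zero]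

theorem KT_det_dsum_one (M : Matrix ι ι A) :
    (dsum M (1 : Matrix κ κ A)).det = M.det := by
  unfold dsum
  rw [Matrix.det_fromBlocks_zero₂₁, Matrix.det_one, mul_one]

end

theorem KT : KT_stmt.{u} := by
  intro A _ 𝒦 ι κ _ _ _ _ M N hM hN h
  let e : κ ⊕ ι ≃ ι ⊕ κ := Equiv.sumComm κ ι
  set M' : Matrix (ι ⊕ κ) (ι ⊕ κ) A := dsum M 1 with hM'
  set N' : Matrix (ι ⊕ κ) (ι ⊕ κ) A := Matrix.reindex e e (dsum N 1) with hN'
  have dM' : IsUnit M'.det := by rw [hM', KT_det_dsum_one]; exact hM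
  have dN' : IsUnit N'.det := by
    rw [hN', Matrix.det_reindex_self, KT_det_dsum_one]; exact hN
  have kM' : 𝒦.k M' = 𝒦.k M := 𝒦.k_dsum_one M hM
  have kN' : 𝒦.k N' = 𝒦.k N := by
    rw [hN', 𝒦.k_reindex, 𝒦.k_dsum_one N hN]
  set P : Matrix (ι ⊕ κ) (ι ⊕ κ) A := M' * N'⁻¹ with hP
  have hPN : P * N' = M' := by
    rw [hP, Matrix.mul_assoc, Matrix.nonsing_inv_mul _ dN', Matrix.mul_one]
  have dP : IsUnit P.det := by
    have h1 : IsUnit (P.det * N'.det) := by rw [← Matrix.det_mul, hPN]; exact dM'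
    exact isUnit_of_mul_isUnit_left h1
  have kP : 𝒦.k P = 0 := by
    have h1 := 𝒦.k_mul P N' dP dN'
    rw [hPN, kM', kN', h] at h1
    have h2 : 𝒦.k P + 𝒦.k N = 0 + 𝒦.k N := by rw [← h1, zero_add]
    exact add_right_cancel h2
  obtain ⟨n, hn⟩ := 𝒦.exact P dP kP
  have hPt : 𝒦.k Pᵀ = 0 := by
    have h1 := E_transpose hn
    rw [KT_dsum_transpose, Matrix.transpose_one] at h1
    have dPt : IsUnit (Pᵀ).det := by rw [Matrix.det_transpose]; exact dP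
    rw [← 𝒦.k_dsum_one (κ := Fin n) Pᵀ dPt]
    exact 𝒦.k_E _ h1
  have dMt : IsUnit (Mᵀ).det := by rw [Matrix.det_transpose]; exact hM
  have dNt : IsUnit (Nᵀ).det := by rw [Matrix.det_transpose]; exact hN
  have dN't : IsUnit (N'ᵀ).det := by rw [Matrix.det_transpose]; exact dN'
  have dPt : IsUnit (Pᵀ).det := by rw [Matrix.det_transpose]; exact dP
  have h3 : 𝒦.k M'ᵀ = 𝒦.k N'ᵀ := by
    rw [← hPN, Matrix.transpose_mul, 𝒦.k_mul _ _ dN't dPt, hPt, add_zero]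
  have h4 : 𝒦.k M'ᵀ = 𝒦.k Mᵀ := by
    rw [hM', KT_dsum_transpose, Matrix.transpose_one, 𝒦.k_dsum_one _ dMt]
  have h5 : 𝒦.k N'ᵀ = 𝒦.k Nᵀ := by
    have h6 : N'ᵀ = Matrix.reindex e e (dsum Nᵀ 1) := by
      rw [hN', Matrix.transpose_reindex, KT_dsum_transpose, Matrix.transpose_one]
    rw [h6, 𝒦.k_reindex, 𝒦.k_dsum_one _ dNt]
  rw [← h4, h3, h5]

end GB
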