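import Pool.Agent.helper68.GB.Spec
import Pool.Agent.helper59.FI.Base

set_option autoImplicit false

namespace Pool.Agent.GB

open Pool.Agent.helper58.DC Pool.Agent.DI Pool.Agent.GR Pool.Agent.OB Pool.Agent.DR Pool.Agent.FI Pool.Agent.FI3 Pool.Agent.FI4 Pool.Agent.LE Pool.Agent.BR

theorem LOZ (hTSZ : TSZ_stmt) (hORZ : ORZ_stmt) (hTBZ : TBZ_stmt) (hLIZ : LIZ_stmt) (hUQT : UQT_stmt)
    (hREP : REP_stmt) : LOZ_stmt := by
  intro p M hS G _ _ D T x θ χ hZ l ψ hψ ψ' hψ'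
  haveI : Fact p.Prime := ⟨hS.pr⟩
  refine ⟨?_, ?_⟩
  · intro P hP w hw
    obtain ⟨r, hr⟩ := (IsPGroup.iff_card (p := p) (G := P)).mp hP
    obtain ⟨N₀, hN⟩ := hTSZ p M hS G D T x θ χ hZ l ψ hψ ψ' hψ' P hP w hw r
    obtain ⟨c, hc, he⟩ := hN N₀ le_rfl
    have h2 := hORZ p M hS G D T x θ χ hZ l ψ hψ ψ' hψ' P hP w hw (p ^ N₀)
    have hp0 : ((p : ℂ) ^ r) ≠ 0 := pow_ne_zero r hS.p_ne
    have hcard : (Nat.card P : ℂ) = (p : ℂ) ^ r := by
      rw [hr]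
      push_cast
      rfl
    rw [hcard] at h2 ⊢
    have e := sub_eq_iff_eq_add.mp he
    rw [e, add_div, mul_div_cancel_left₀ _ hp0]
    exact IntAt.add hS hc h2
  · intro u w hu hw
    rw [hTBZ p M hS G D T x θ χ hZ l ψ hψ u w hw]
    obtain ⟨hfin, hrep, -, hbb, -⟩ := hREP p M hS G (Cz (⊤ : Subgroup G) u)
    refine IntAt.finsum_mem hS ?_
    intro e he
    obtain ⟨k, hk⟩ := hu
    have hpg : IsPGroup p (Subgroup.zpowers u) := by
      rintro ⟨g, n, hn⟩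
      refine ⟨k, Subtype.ext ?_⟩
      have hn' : u ^ n = g := hn
      show g ^ p ^ k = 1
      rw [← hn', ← zpow_natCast, ← zpow_mul, mul_comm, zpow_mul, zpow_natCast, hk, one_zpow]
    have hPai : Pai p M (Subgroup.zpowers u) e := ⟨hpg, by rw [cz_zp]; exact he⟩
    have h1 := (hLIZ p M hS G D T x θ χ hZ l (Subgroup.zpowers u) e hPai).1 u (Subgroup.mem_zpowers u)
    have h2 := (hUQT p M hS G (Subgroup.zpowers u) e hPai).1
    unfold LamP at h1
    rw [h2] at h1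
    refine IntAt.mul hS h1 ?_
    unfold ev
    refine IntAt.finsum hS ?_
    intro y
    exact IntAt.mul hS ((hbb e he).2.2.1 y) (IntAt.of_isIntegral hS (IrrOn_int hψ _))

end Pool.Agent.GB
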