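import Pool.Agent.helper42.GB.SpecR

/-!
# Project gb: the end of the algorithm (module RF)
-/

open Matrix Polynomial

namespace GB

universe u

section

variable {R : Type*} [CommRing R]

/-- pseudo-division by a polynomial of degree one -/
theorem RF_div (α : R) (g : R[X]) (b : R) (hg : g = C α * X + C b) (f : R[X]) :
    ∃ (K : ℕ) (q : R[X]) (ρ : R), C (α ^ K) * f = q * g + C ρ := by
  induction f using Polynomial.induction_on' with
  | add f₁ f₂ h1 h2 =>
    obtain ⟨K1, q1, ρ1, e1⟩ := h1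
    obtain ⟨K2, q2, ρ2, e2⟩ := h2
    refine ⟨K1 + K2, C (α ^ K2) * q1 + C (α ^ K1) * q2, α ^ K2 * ρ1 + α ^ K1 * ρ2, ?_⟩
    rw [pow_add, C_mul, C_add, C_mul, C_mul]
    linear_combination C (α ^ K2) * e1 + C (α ^ K1) * e2
  | monomial n c =>
    obtain ⟨q, hq⟩ := sub_dvd_pow_sub_pow (C α * X) (-C b) n
    refine ⟨n, C c * q, c * (-b) ^ n, ?_⟩
    have h1 : C α * X - -C b = g := by rw [hg]; ring
    rw [h1] at hq
    have h2 : C (α ^ n) * monomial n c = C c * (C α * X) ^ n := by
      rw [← C_mul_X_pow_eq_monomial, mul_pow, C_pow]; ring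
    have h3 : C (c * (-b) ^ n) = C c * (-C b) ^ n := by
      rw [C_mul, C_pow, C_neg]
    rw [h2, h3]
    linear_combination C c * hq

/-- common exponent -/
theorem RF_div_all {ι : Type*} [Fintype ι] (a : R) (k : ℕ) (g : R[X]) (b : R)
    (hg : g = C (a ^ k) * X + C b) (v : ι → R[X]) :
    ∃ (K : ℕ) (q : ι → R[X]) (ρ : ι → R), ∀ j, C (a ^ K) * v j = q j * g + C (ρ j) := by
  choose K q ρ h using fun j => RF_div (a ^ k) g b hg (v j)
  refine ⟨∑ j, k * K j, fun j => C (a ^ (∑ i, k * K i - k * K j)) * q j,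
    fun j => a ^ (∑ i, k * K i - k * K j) * ρ j, fun j => ?_⟩
  have h1 : k * K j ≤ ∑ i, k * K i :=
    Finset.single_le_sum (f := fun i => k * K i) (fun i _ => Nat.zero_le _) (Finset.mem_univ j)
  have h2 : a ^ (∑ i, k * K i) = a ^ (∑ i, k * K i - k * K j) * (a ^ k) ^ K j := by
    rw [← pow_mul, ← pow_add]
    congr 1
    omega
  rw [h2, C_mul, C_mul]
  linear_combination C (a ^ (∑ i, k * K i - k * K j)) * h j

/-- an element in finitely many ideals and outside finitely many primes -/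
theorem RF_avoid1 (B1 B2 : Finset (Ideal R)) (hp1 : ∀ p ∈ B1, p.IsPrime) (I : Ideal R)
    (h1 : ∀ p ∈ B1, ¬ I ≤ p) (h2 : ∀ p ∈ B1, ∀ q ∈ B2, ¬ q ≤ p) :
    ∃ y ∈ I, (∀ p ∈ B2, y ∈ p) ∧ ∀ p ∈ B1, y ∉ p := by
  by_contra hcon
  push Not at hcon
  have hsub : (((I ⊓ B2.inf id : Ideal R)) : Set R) ⊆
      ⋃ p ∈ (B1 : Set (Ideal R)), ((id p : Ideal R) : Set R) := by
    intro y hy
    obtain ⟨hyI, hyB⟩ := hy
    obtain ⟨p, hp, hyp⟩ := hcon y hyI
      (fun p hp => (Finset.inf_le (f := id) hp : B2.inf id ≤ id p) hyB)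
    exact Set.mem_iUnion₂.2 ⟨p, hp, hyp⟩
  obtain ⟨p, hp, hle⟩ := (Ideal.subset_union_prime (s := B1) (f := id) ⊥ ⊥
      (fun p hp _ _ => hp1 p hp)).1 hsub
  rcases (hp1 p hp).inf_le.1 hle with h | h
  · exact h1 p hp h
  · obtain ⟨q, hq, hqp⟩ := (Ideal.IsPrime.inf_le' (hp1 p hp)).1 h
    exact h2 p hp q hq hqp

/-- coset prime avoidance for incomparable primes -/
theorem RF_avoid (B : Set (Ideal R)) (hfin : B.Finite) (hprime : ∀ p ∈ B, p.IsPrime)
    (hinc : ∀ p ∈ B, ∀ q ∈ B, p ≤ q → p = q) (x : R) (I : Ideal R)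
    (h : ∀ p ∈ B, x ∈ p → ¬ I ≤ p) : ∃ y ∈ I, ∀ p ∈ B, x + y ∉ p := by
  classical
  obtain ⟨y, hyI, hy2, hy1⟩ := RF_avoid1 (hfin.toFinset.filter fun p => x ∈ p)
    (hfin.toFinset.filter fun p => x ∉ p)
    (fun p hp => hprime p (hfin.mem_toFinset.1 (Finset.mem_filter.1 hp).1)) I
    (fun p hp => h p (hfin.mem_toFinset.1 (Finset.mem_filter.1 hp).1) (Finset.mem_filter.1 hp).2)
    (fun p hp q hq hqp => by
      have e := hinc q (hfin.mem_toFinset.1 (Finset.mem_filter.1 hq).1) p
        (hfin.mem_toFinset.1 (Finset.mem_filter.1 hp).1) hqp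
      rw [e] at hq
      exact (Finset.mem_filter.1 hq).2 (Finset.mem_filter.1 hp).2)
  refine ⟨y, hyI, fun p hp hxy => ?_⟩
  by_cases hx : x ∈ p
  · have hyp : y ∈ p := by
      have := p.sub_mem hxy hx
      rwa [add_sub_cancel_left] at this
    exact hy1 p (Finset.mem_filter.2 ⟨hfin.mem_toFinset.2 hp, hx⟩) hyp
  · have hyp : y ∈ p := hy2 p (Finset.mem_filter.2 ⟨hfin.mem_toFinset.2 hp, hx⟩)
    have := p.sub_mem hxy hyp
    rw [add_sub_cancel_right] at this
    exact hx this

/-- a unimodular row whose entries are divisible by `g` up to powers of `a` -/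
theorem RF_unit {ι : Type*} [Fintype ι] [DecidableEq ι] (S : Type*) [CommRing S] [IsDomain S]
    (a : S) (ha : a ≠ 0) (g : S[X]) (hg : g.natDegree = 1) (v w q : ι → S[X]) (K : ℕ)
    (hv : v ⬝ᵥ w = 1) (h : ∀ j, C (a ^ K) * v j = q j * g) : False := by
  have h1 : C (a ^ K) = g * ∑ j, q j * w j := by
    have h2 : C (a ^ K) * (v ⬝ᵥ w) = g * ∑ j, q j * w j := by
      rw [dotProduct, Finset.mul_sum, Finset.mul_sum]
      apply Finset.sum_congr rfl
      intro j _
      rw [← mul_assoc, h j]; ring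
    rwa [hv, mul_one] at h2
  have h3 : (C (a ^ K) : S[X]) ≠ 0 := by
    rw [Ne, C_eq_zero]; exact pow_ne_zero _ ha
  have h4 : g ≠ 0 := by
    intro h0; rw [h0] at hg; simp at hg
  have h5 : (∑ j, q j * w j) ≠ 0 := by
    intro h0; rw [h0, mul_zero] at h1; exact h3 h1
  have h6 := congrArg natDegree h1
  rw [natDegree_C, natDegree_mul h4 h5, hg] at h6
  omega

end

/-- multiplication of an entry by an even power of `a`, guard `iD` -/
theorem RF_pow (hO2 : O2_stmt.{u}) {A : Type u} [CommRing A] {ι : Type} [Fintype ι]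
    [DecidableEq ι] (h3 : 3 ≤ Fintype.card ι) (v : ι → A) (hv : Um v) (i l : ι) (hil : i ≠ l)
    (a : A) (hl : a ∣ v l - 1) (K : ℕ) : EEq v (Function.update v i (a ^ (2 * K) * v i)) := by
  induction K with
  | zero => simp [Function.update_eq_self, EEq.refl]
  | succ K ih =>
    refine ih.trans ?_
    obtain ⟨b, hb⟩ := hl
    have h4 : Function.update v i (a ^ (2 * K) * v i) l = v l := Function.update_of_ne hil.symm _ _
    have h5 := hO2 A ι h3 (Function.update v i (a ^ (2 * K) * v i)) (ih.um hv) i l hil.symm a (-b)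
      (-1) (by rw [h4]; linear_combination hb)
    rw [Function.update_self, Function.update_idem] at h5
    have h6 : a ^ (2 * (K + 1)) * v i = a ^ 2 * (a ^ (2 * K) * v i) := by ring
    rw [h6]
    exact h5

theorem RF (hO2 : O2_stmt.{u}) : RF_stmt.{u} := by
  intro R _ a B hfin hprime hinc haB ι _ _ h3 v hv i0 i1 iD h01 h0D h1D hst
  obtain ⟨hdeg, ⟨k, hlead⟩, hguard⟩ := hst
  have hg : v i0 = C (a ^ k) * X + C ((v i0).coeff 0) := by
    have h1 := Polynomial.eq_X_add_C_of_natDegree_le_one (p := v i0) (by omega)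
    rw [← hlead, Polynomial.leadingCoeff, hdeg]
    exact h1
  obtain ⟨K, q, ρ, hρ⟩ := RF_div_all a k (v i0) _ hg v
  obtain ⟨w, hw⟩ := hv
  -- the ideal of the other remainders
  set J : Finset ι := (Finset.univ.erase i0).erase i1 with hJ
  set I : Ideal R := Ideal.span (ρ '' (J : Set ι)) with hI
  have havoid : ∀ p ∈ B, ρ i1 ∈ p → ¬ I ≤ p := by
    intro p hp h1 hle
    have hpp := hprime p hp
    have hρp : ∀ j, j ≠ i0 → ρ j ∈ p := by
      intro j hj
      by_cases hj1 : j = i1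
      · rw [hj1]; exact h1
      · exact hle (Ideal.subset_span ⟨j, by
          rw [Finset.mem_coe, hJ, Finset.mem_erase, Finset.mem_erase]
          exact ⟨hj1, hj, Finset.mem_univ _⟩, rfl⟩)
    let φ : R →+* R ⧸ p := Ideal.Quotient.mk p
    have ha : φ a ≠ 0 := fun h => haB p hp (Ideal.Quotient.eq_zero_iff_mem.1 h)
    have hlc : φ (v i0).leadingCoeff ≠ 0 := by
      rw [hlead, map_pow]; exact pow_ne_zero _ ha
    refine RF_unit (R ⧸ p) (φ a) ha ((v i0).map φ)
      (by rw [natDegree_map_of_leadingCoeff_ne_zero φ hlc, hdeg])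
      (fun j => (v j).map φ) (fun j => (w j).map φ)
      (fun j => if j = i0 then C (φ a ^ K) else (q j).map φ) K ?_ ?_
    · have := congrArg (Polynomial.map φ) hw
      rw [dotProduct, Polynomial.map_sum, Polynomial.map_one] at this
      simpa [dotProduct, Polynomial.map_mul] using this
    · intro j
      by_cases hj : j = i0
      · simp [hj]
      · have h4 := congrArg (Polynomial.map φ) (hρ j)
        rw [Polynomial.map_mul, Polynomial.map_add, Polynomial.map_mul, Polynomial.map_C,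
          Polynomial.map_C, map_pow] at h4
        have h5 : φ (ρ j) = 0 := Ideal.Quotient.eq_zero_iff_mem.2 (hρp j hj)
        rw [h5, C_0, add_zero] at h4
        simp only [if_neg hj]
        exact h4
  obtain ⟨y, hyI, hy⟩ := RF_avoid B hfin hprime hinc (ρ i1) I havoid
  -- the combination
  have hcomb : ∃ e : ι → R, (∑ j ∈ J, e j * ρ j) = y := by
    have h7 : y ∈ Submodule.span R (ρ '' (J : Set ι)) := hyI
    rw [Submodule.mem_span_image_finset_iff_exists_fun'] at h7
    exact h7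
  obtain ⟨e, he⟩ := hcomb
  have hv : Um v := ⟨w, hw⟩
  have hguard' : C a ∣ v iD - 1 := hguard
  have s1 := RF_pow hO2 h3 v hv i1 iD h1D (C a) hguard' K
  set v1 := Function.update v i1 (C a ^ (2 * K) * v i1) with hv1
  set t : R[X] := -(C (a ^ K) * (q i1 + ∑ j ∈ J, C (e j) * q j)) with ht
  set c : ι → R[X] := fun j => if j = i1 then 0 else if j = i0 then t else C (a ^ (2 * K) * e j)
    with hc
  have s2 := EEq_add_one i1 v1 c (by simp [hc])
  refine ⟨_, a ^ K * (ρ i1 + y), s1.trans s2, ?_, ?_⟩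
  · rw [Function.update_self]
    have hsum : v1 ⬝ᵥ c = v i0 * t + ∑ j ∈ J, v j * C (a ^ (2 * K) * e j) := by
      rw [dotProduct, ← Finset.add_sum_erase Finset.univ _ (Finset.mem_univ i0),
        ← Finset.add_sum_erase (Finset.univ.erase i0) _
          (Finset.mem_erase.2 ⟨h01.symm, Finset.mem_univ i1⟩)]
      have e1 : c i1 = 0 := by simp [hc]
      have e2 : c i0 = t := by simp [hc, h01]
      have e3 : v1 i0 = v i0 := Function.update_of_ne h01 _ _
      rw [e1, e2, e3, mul_zero, zero_add]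
      congr 1
      apply Finset.sum_congr rfl
      intro j hj
      rw [Finset.mem_erase, Finset.mem_erase] at hj
      have e4 : v1 j = v j := Function.update_of_ne hj.1 _ _
      have e5 : c j = C (a ^ (2 * K) * e j) := by simp [hc, hj.1, hj.2.1]
      rw [e4, e5]
    have e6 : v1 i1 = C a ^ (2 * K) * v i1 := Function.update_self _ _ _
    rw [hsum, e6]
    have e7 : C a ^ (2 * K) * v i1 = C (a ^ K) * (q i1 * v i0 + C (ρ i1)) := by
      rw [← hρ i1, C_pow]; ring
    have e8 : ∑ j ∈ J, v j * C (a ^ (2 * K) * e j) =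
        C (a ^ K) * ∑ j ∈ J, (C (e j) * q j * v i0 + C (e j * ρ j)) := by
      rw [Finset.mul_sum]
      apply Finset.sum_congr rfl
      intro j _
      have := hρ j
      have h9 : C (a ^ (2 * K) * e j) = C (a ^ K) * C (a ^ K) * C (e j) := by
        rw [← C_mul, ← C_mul, ← pow_add, two_mul]
      rw [h9, C_mul (a := e j)]
      linear_combination C (a ^ K) * C (e j) * this
    have e9 : ∑ j ∈ J, (C (e j) * q j * v i0 + C (e j * ρ j)) =
        (∑ j ∈ J, C (e j) * q j) * v i0 + C y := by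
      rw [Finset.sum_add_distrib, ← Finset.sum_mul, ← he, map_sum]
    rw [e7, e8, e9, ht, C_mul, C_add]
    ring
  · intro p hp hmem
    have hpp := hprime p hp
    rcases hpp.mem_or_mem hmem with h4 | h4
    · exact haB p hp (hpp.mem_of_pow_mem _ h4)
    · exact hy p hp h4

end GB
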